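import Pool.Agent.TH665.CG6.Grow

/-!
# Six equal values in all large degrees: the explicit blocks
-/

set_option autoImplicit false

namespace Pool.Agent.TH665.CG6

open Pool.Agent.W289.CG

/-- a block of size 12 -/
def L0 : List (ℤ × ℤ) :=
  [(-113, 37), (-94, 31), (-57, 31), (-59, 37), (-54, 37), (-37, 31), (37, 31), (54, 37), (59, 37), (57, 31), (94, 31), (113, 37)]

lemma b0 : blk L0 273814110272102400000 := by decide +kernel

/-- a block of size 31 -/
def L1 : List (ℤ × ℤ) :=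
  [(-53, 1), (-15, 1), (-11, 2), (-83, 19), (-4, 1), (-11, 3), (-94, 31), (-38, 13), (-8, 3), (-47, 19), (-7, 3), (-17, 9), (-11, 7), (-6, 7), (-4, 7), (-6, 11), (1, 7), (6, 11), (6, 7), (3, 2), (11, 7), (29, 13), (9, 4), (47, 19), (38, 13), (94, 31), (17, 5), (4, 1), (83, 19), (9, 2), (5, 1)]

lemma b1 : blk L1 115332911833119439020097536000000000 := by decide +kernel

/-- a block of size 14 -/
def L2 : List (ℤ × ℤ) :=
  [(-37, 1), (-17, 1), (-13, 2), (-6, 1), (-19, 7), (-5, 2), (-6, 11), (6, 11), (5, 2), (19, 7), (6, 1), (13, 2), (17, 1), (37, 1)]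

lemma b2 : blk L2 1267136462592000 := by decide +kernel

/-- a block of size 45 -/
def L3 : List (ℤ × ℤ) :=
  [(-23, 1), (-19, 1), (-14, 1), (-12, 1), (-9, 1), (-6, 1), (-9, 2), (-83, 19), (-4, 1), (-7, 2), (-17, 5), (-13, 4), (-94, 31), (-38, 13), (-47, 19), (-9, 4), (-33, 16), (-5, 3), (-29, 23), (-3, 5), (-4, 7), (-2, 5), (-1, 4), (-1, 7), (1, 2), (4, 7), (3, 4), (29, 23), (5, 3), (33, 16), (9, 4), (12, 5), (38, 13), (94, 31), (13, 4), (17, 5), (7, 2), (11, 3), (4, 1), (9, 2), (11, 2), (9, 1), (14, 1), (19, 1), (23, 1)]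

lemma b3 : blk L3 385587151174971106857146182334939136000000000000 := by decide +kernel

/-- a block of size 22 -/
def L4 : List (ℤ × ℤ) :=
  [(-9, 1), (-11, 3), (-18, 5), (-94, 31), (-38, 13), (-109, 43), (-57, 31), (-7, 4), (-4, 3), (-37, 31), (-7, 13), (7, 13), (37, 31), (4, 3), (7, 4), (57, 31), (109, 43), (38, 13), (94, 31), (18, 5), (11, 3), (9, 1)]

lemma b4 : blk L4 6982916965803264245760000000 := by decide +kernel

/-- a block of size 29 -/
def L5 : List (ℤ × ℤ) :=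
  [(-18, 1), (-15, 1), (-14, 1), (-13, 1), (-12, 1), (-10, 1), (-9, 1), (-8, 1), (-13, 4), (-38, 13), (-8, 3), (-7, 3), (-9, 4), (-2, 5), (-1, 9), (-1, 13), (1, 13), (1, 9), (3, 7), (29, 13), (7, 3), (8, 3), (38, 13), (13, 4), (5, 1), (11, 2), (7, 1), (15, 1), (18, 1)]

lemma b5 : blk L5 1418884566711518610063360000000 := by decide +kernel

theorem dat6 (n : ℕ) (hn : 46 ≤ n ∨ (24 ≤ n ∧ Even n)) : Nonempty (Dat n 6) := by
  have h0 : L0.length = 12 := rfl
  have h1 : L1.length = 31 := rfl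
  have h2 : L2.length = 14 := rfl
  have h3 : L3.length = 45 := rfl
  have h4 : L4.length = 22 := rfl
  have h5 : L5.length = 29 := rfl
  have he : Even n → n % 2 = 0 := fun h => Nat.even_iff.1 h
  have hcase : n % 6 = 0 ∨ n % 6 = 1 ∨ n % 6 = 2 ∨ n % 6 = 3 ∨ n % 6 = 4 ∨ n % 6 = 5 := by omega
  rcases hcase with h | h | h | h | h | h
  · exact dat_of_blk b0 n ((n - 12) / 6 - 1) (by rw [h0]; omega)
  · have hn' : 46 ≤ n := by
      rcases hn with h' | ⟨-, h'⟩
      · exact h'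
      · have := he h'; omega
    exact dat_of_blk b1 n ((n - 31) / 6 - 1) (by rw [h1]; omega)
  · exact dat_of_blk b2 n ((n - 14) / 6 - 1) (by rw [h2]; omega)
  · have hn' : 46 ≤ n := by
      rcases hn with h' | ⟨-, h'⟩
      · exact h'
      · have := he h'; omega
    exact dat_of_blk b3 n ((n - 45) / 6 - 1) (by rw [h3]; omega)
  · exact dat_of_blk b4 n ((n - 22) / 6 - 1) (by rw [h4]; omega)
  · have hn' : 46 ≤ n := by
      rcases hn with h' | ⟨-, h'⟩
      · exact h'
      · have := he h'; omega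
    exact dat_of_blk b5 n ((n - 29) / 6 - 1) (by rw [h5]; omega)

end Pool.Agent.TH665.CG6
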