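import Pool.Agent.TH665.CG6.Chain

/-!
# Six equal values: explicit blocks
-/

set_option autoImplicit false

namespace Pool.Agent.TH665.CG6

open Polynomial Pool.Agent.W289.CG Pool.Agent.W460.CG

/-- the six points -/
def x6 : Fin 6 → ℚ := ![-3, -2, -1, 1, 2, 3]

/-- equal values at the six points -/
def Eq6 (S : Finset ℚ) (v : ℚ) : Prop := ∀ j, (PS S).eval (x6 j) = v

lemma Eq6.union {S B : Finset ℚ} {v w : ℚ} (h : Disjoint S B) (h1 : Eq6 S v) (h2 : Eq6 B w) :
    Eq6 (S ∪ B) (v * w) := by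
  intro j
  rw [PS_union h, eval_mul, h1 j, h2 j]

/-- the product of the numbers `x q - p`, for the fractions `p / q` in the list -/
def nm (x : ℤ) : List (ℤ × ℤ) → ℤ
  | [] => 1
  | p :: l => (x * p.2 - p.1) * nm x l

/-- the product of the denominators -/
def dn : List (ℤ × ℤ) → ℤ
  | [] => 1
  | p :: l => p.2 * dn l

lemma nm_cons (x : ℤ) (p : ℤ × ℤ) (l : List (ℤ × ℤ)) : nm x (p :: l) = (x * p.2 - p.1) * nm x l :=
  rfl

lemma dn_cons (p : ℤ × ℤ) (l : List (ℤ × ℤ)) : dn (p :: l) = p.2 * dn l := rfl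

/-- the fraction -/
def fr (p : ℤ × ℤ) : ℚ := (p.1 : ℚ) / p.2

/-- the denominators are positive and the fractions are distinct -/
def okL (l : List (ℤ × ℤ)) : Prop :=
  (∀ p ∈ l, 0 < p.2) ∧ l.Pairwise fun p q => p.1 * q.2 ≠ q.1 * p.2

instance (l : List (ℤ × ℤ)) : Decidable (okL l) := by unfold okL; infer_instance

lemma okL.nodup {l : List (ℤ × ℤ)} (h : okL l) : (l.map fr).Nodup := by
  unfold List.Nodup
  rw [List.pairwise_map]
  refine (h.2.imp_of_mem ?_)
  intro p q hp hq hne heq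
  apply hne
  have h1 : (0 : ℚ) < p.2 := by exact_mod_cast h.1 p hp
  have h2 : (0 : ℚ) < q.2 := by exact_mod_cast h.1 q hq
  unfold fr at heq
  rw [div_eq_div_iff h1.ne' h2.ne'] at heq
  exact_mod_cast heq

lemma eval_list (l : List (ℤ × ℤ)) (h : ∀ p ∈ l, 0 < p.2) (x : ℤ) :
    ((l.map fr).map fun s => (x : ℚ) - s).prod = (nm x l : ℚ) / dn l := by
  induction l with
  | nil => simp [nm, dn]
  | cons p l ih =>
    have h1 : (0 : ℚ) < p.2 := by exact_mod_cast h p List.mem_cons_self
    rw [List.map_cons, List.map_cons, List.prod_cons, ih fun q hq => h q (List.mem_cons_of_mem _ hq)]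
    rw [nm_cons, dn_cons]
    unfold fr
    push_cast
    rw [mul_div_mul_comm]
    congr 1
    field_simp

lemma dn_pos (l : List (ℤ × ℤ)) (h : ∀ p ∈ l, 0 < p.2) : 0 < dn l := by
  induction l with
  | nil => simp [dn]
  | cons p l ih =>
    rw [dn_cons]
    exact mul_pos (h p List.mem_cons_self) (ih fun q hq => h q (List.mem_cons_of_mem _ hq))

/-- an explicit block -/
def blk (l : List (ℤ × ℤ)) (c : ℤ) : Prop :=
  okL l ∧ nm (-3) l = c ∧ nm (-2) l = c ∧ nm (-1) l = c ∧ nm 1 l = c ∧ nm 2 l = c ∧ nm 3 l = c ∧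
    0 < c ∧ ∃ p ∈ l, 3 * p.2 < p.1

instance (l : List (ℤ × ℤ)) (c : ℤ) : Decidable (blk l c) := by unfold blk; infer_instance

lemma of_blk {l : List (ℤ × ℤ)} {c : ℤ} (h : blk l c) :
    ∃ (S : Finset ℚ) (v : ℚ), S.card = l.length ∧ 0 < v ∧ Eq6 S v ∧ ∃ s ∈ S, 3 < s := by
  classical
  obtain ⟨hok, h1, h2, h3, h4, h5, h6, hc, p, hp, hp3⟩ := h
  have hnd := hok.nodup
  have hd := dn_pos l hok.1
  have hdQ : (0 : ℚ) < dn l := by exact_mod_cast hd
  have hcQ : (0 : ℚ) < c := by exact_mod_cast hc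
  refine ⟨(l.map fr).toFinset, (c : ℚ) / dn l, ?_, by positivity, ?_, fr p, ?_, ?_⟩
  · rw [List.toFinset_card_of_nodup hnd, List.length_map]
  · have hev : ∀ x : ℤ, (PS (l.map fr).toFinset).eval (x : ℚ) = (nm x l : ℚ) / dn l := by
      intro x
      rw [← eval_list l hok.1 x]
      unfold PS
      rw [eval_prod, List.prod_toFinset _ hnd]
      congr 1
      apply List.map_congr_left
      intro s _
      simp
    intro j
    fin_cases j
    · have := hev (-3); rw [h1] at this; simpa [x6] using this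
    · have := hev (-2); rw [h2] at this; simpa [x6] using this
    · have := hev (-1); rw [h3] at this; simpa [x6] using this
    · have := hev 1; rw [h4] at this; simpa [x6] using this
    · have := hev 2; rw [h5] at this; simpa [x6] using this
    · have := hev 3; rw [h6] at this; simpa [x6] using this
  · rw [List.mem_toFinset, List.mem_map]
    exact ⟨p, hp, rfl⟩
  · have h1 : (0 : ℚ) < p.2 := by exact_mod_cast hok.1 p hp
    unfold fr
    rw [lt_div_iff₀ h1]
    exact_mod_cast hp3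

end Pool.Agent.TH665.CG6
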