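import Pool.Agent.W460.CG.Gen

/-!
# Six equal values: the infinite family of blocks of size six
-/

set_option autoImplicit false

namespace Pool.Agent.TH665.CG6

open Polynomial Pool.Agent.W289.CG Pool.Agent.W460.CG Filter Topology

lemma par7 (F G : Finset ℚ) : ∃ x y z : ℚ, 0 < y ∧ y < x ∧ x < z ∧ z = x + y ∧
    x ^ 2 + x * y + y ^ 2 = 7 ∧ 0 < x * y * z ∧ x * y * z < 6 ∧ (x * y * z) ^ 2 ∉ G ∧
    (x ∉ F ∧ y ∉ F ∧ z ∉ F) ∧ (-x ∉ F ∧ -y ∉ F ∧ -z ∉ F) := by
  classical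
  let F' : Finset ℚ := F ∪ F.image (fun x => -x)
  have hF' : ∀ x, x ∉ F' → x ∉ F ∧ -x ∉ F := by
    intro x hx
    rw [Finset.mem_union, not_or] at hx
    refine ⟨hx.1, fun h => hx.2 ?_⟩
    rw [Finset.mem_image]
    exact ⟨-x, h, neg_neg x⟩
  have hpos : ∀ᶠ u in 𝓝[>] (0 : ℚ), 0 < u := eventually_mem_nhdsWithin
  have hlt : ∀ᶠ u in 𝓝[>] (0 : ℚ), u < 1 / 8 :=
    (eventually_lt_nhds (by norm_num : (0 : ℚ) < 1 / 8)).filter_mono nhdsWithin_le_nhds
  have hX : Tendsto (fun u : ℚ => (2 + 6 * u + u ^ 2) / (1 + u + u ^ 2)) (𝓝[>] (0 : ℚ))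
      (𝓝 2) := by
    have := tendsto_div (N := fun u => 2 + 6 * u + u ^ 2) (D := fun u => 1 + u + u ^ 2)
      (by fun_prop) (by fun_prop) (by norm_num)
    simpa using this
  have hY : Tendsto (fun u : ℚ => (1 - 4 * u - 3 * u ^ 2) / (1 + u + u ^ 2)) (𝓝[>] (0 : ℚ))
      (𝓝 1) := by
    have := tendsto_div (N := fun u => 1 - 4 * u - 3 * u ^ 2) (D := fun u => 1 + u + u ^ 2)
      (by fun_prop) (by fun_prop) (by norm_num)
    simpa using this
  have hZ : Tendsto (fun u : ℚ => (3 + 2 * u - 2 * u ^ 2) / (1 + u + u ^ 2)) (𝓝[>] (0 : ℚ))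
      (𝓝 3) := by
    have := tendsto_div (N := fun u => 3 + 2 * u - 2 * u ^ 2) (D := fun u => 1 + u + u ^ 2)
      (by fun_prop) (by fun_prop) (by norm_num)
    simpa using this
  have hK : Tendsto (fun u : ℚ => ((2 + 6 * u + u ^ 2) / (1 + u + u ^ 2) *
      ((1 - 4 * u - 3 * u ^ 2) / (1 + u + u ^ 2)) *
      ((3 + 2 * u - 2 * u ^ 2) / (1 + u + u ^ 2))) ^ 2) (𝓝[>] (0 : ℚ)) (𝓝 36) := by
    have := ((hX.mul hY).mul hZ).pow 2
    norm_num at this
    exact this
  have key6 : ∀ u : ℚ, 0 < u → u < 1 / 8 → (2 + 6 * u + u ^ 2) / (1 + u + u ^ 2) *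
      ((1 - 4 * u - 3 * u ^ 2) / (1 + u + u ^ 2)) *
      ((3 + 2 * u - 2 * u ^ 2) / (1 + u + u ^ 2)) < 6 := by
    intro u hu hu'
    have hD : 0 < 1 + u + u ^ 2 := by positivity
    rw [div_mul_div_comm, div_mul_div_comm, div_lt_iff₀ (by positivity)]
    have h1 : 0 < 20 * u + 131 * u ^ 2 + 162 * u ^ 3 + u ^ 4 * (31 - 20 * u) := by
      have : 0 < 31 - 20 * u := by linarith
      positivity
    nlinarith [h1]
  have key0 : ∀ u : ℚ, 0 < u → u < 1 / 8 → 0 < 1 - 4 * u - 3 * u ^ 2 := by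
    intro u hu hu'
    nlinarith
  have key0' : ∀ u : ℚ, 0 < u → u < 1 / 8 → 0 < 3 + 2 * u - 2 * u ^ 2 := by
    intro u hu hu'
    nlinarith
  have eX := eventually_notMem _ 2 hX (by
    filter_upwards [hpos, hlt] with u hu hu'
    have hD : 0 < 1 + u + u ^ 2 := by positivity
    rw [Ne, div_eq_iff hD.ne']
    intro h
    nlinarith) F'
  have eY := eventually_notMem _ 1 hY (by
    filter_upwards [hpos, hlt] with u hu hu'
    have hD : 0 < 1 + u + u ^ 2 := by positivity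
    rw [Ne, div_eq_iff hD.ne']
    intro h
    nlinarith) F'
  have eZ := eventually_notMem _ 3 hZ (by
    filter_upwards [hpos, hlt] with u hu hu'
    have hD : 0 < 1 + u + u ^ 2 := by positivity
    rw [Ne, div_eq_iff hD.ne']
    intro h
    nlinarith) F'
  have eK := eventually_notMem _ 36 hK (by
    filter_upwards [hpos, hlt] with u hu hu'
    have h1 := key6 u hu hu'
    have h2 := key0 u hu hu'
    have h2' := key0' u hu hu'
    have h3 : 0 < (2 + 6 * u + u ^ 2) / (1 + u + u ^ 2) *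
      ((1 - 4 * u - 3 * u ^ 2) / (1 + u + u ^ 2)) *
      ((3 + 2 * u - 2 * u ^ 2) / (1 + u + u ^ 2)) := by positivity
    intro h
    nlinarith) G
  obtain ⟨u, h1, h2, h3, h4, h5, h6⟩ :=
    (hpos.and (hlt.and (eX.and (eY.and (eZ.and eK))))).exists
  have hD : 0 < 1 + u + u ^ 2 := by positivity
  have hy0 := key0 u h1 h2
  have hz0 := key0' u h1 h2
  have hsum : (3 + 2 * u - 2 * u ^ 2) / (1 + u + u ^ 2) =
      (2 + 6 * u + u ^ 2) / (1 + u + u ^ 2) + (1 - 4 * u - 3 * u ^ 2) / (1 + u + u ^ 2) := by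
    rw [← add_div]
    congr 1
    ring
  have hy1 : 0 < (1 - 4 * u - 3 * u ^ 2) / (1 + u + u ^ 2) := by positivity
  refine ⟨(2 + 6 * u + u ^ 2) / (1 + u + u ^ 2), (1 - 4 * u - 3 * u ^ 2) / (1 + u + u ^ 2),
    (3 + 2 * u - 2 * u ^ 2) / (1 + u + u ^ 2), hy1, ?_, ?_, hsum, ?_, ?_, key6 u h1 h2, h6,
    ⟨(hF' _ h3).1, (hF' _ h4).1, (hF' _ h5).1⟩, (hF' _ h3).2, (hF' _ h4).2, (hF' _ h5).2⟩
  · apply div_lt_div_of_pos_right _ hD
    nlinarith
  · rw [hsum]
    linarith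
  · field_simp
    ring
  · positivity

lemma block6 (F G : Finset ℚ) : ∃ (B : Finset ℚ) (k : ℚ), B.card = 6 ∧ Disjoint F B ∧ 0 < k ∧
    k < 6 ∧ k ^ 2 ∉ G ∧ PS B = (X ^ 3 - C 7 * X) ^ 2 - C (k ^ 2) := by
  classical
  obtain ⟨x, y, z, h1, h2, h3, h4, h5, h6, h7, h8, ⟨a1, a2, a3⟩, ⟨b1, b2, b3⟩⟩ := par7 F G
  have hx : 0 < x := h1.trans h2
  have hz : 0 < z := hx.trans h3
  have n1 : x ∉ ({-x, y, -y, z, -z} : Finset ℚ) := by
    simp only [Finset.mem_insert, Finset.mem_singleton, not_or]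
    refine ⟨?_, ?_, ?_, ?_, ?_⟩ <;> intro h <;> linarith
  have n2 : -x ∉ ({y, -y, z, -z} : Finset ℚ) := by
    simp only [Finset.mem_insert, Finset.mem_singleton, not_or]
    refine ⟨?_, ?_, ?_, ?_⟩ <;> intro h <;> linarith
  have n3 : y ∉ ({-y, z, -z} : Finset ℚ) := by
    simp only [Finset.mem_insert, Finset.mem_singleton, not_or]
    refine ⟨?_, ?_, ?_⟩ <;> intro h <;> linarith
  have n4 : -y ∉ ({z, -z} : Finset ℚ) := by
    simp only [Finset.mem_insert, Finset.mem_singleton, not_or]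
    refine ⟨?_, ?_⟩ <;> intro h <;> linarith
  have n5 : z ∉ ({-z} : Finset ℚ) := by
    simp only [Finset.mem_singleton]
    intro h
    linarith
  refine ⟨{x, -x, y, -y, z, -z}, x * y * z, ?_, ?_, h6, h7, h8, ?_⟩
  · rw [Finset.card_insert_of_notMem n1, Finset.card_insert_of_notMem n2,
      Finset.card_insert_of_notMem n3, Finset.card_insert_of_notMem n4,
      Finset.card_insert_of_notMem n5, Finset.card_singleton]
  · rw [Finset.disjoint_right]
    intro w hw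
    simp only [Finset.mem_insert, Finset.mem_singleton] at hw
    rcases hw with rfl | rfl | rfl | rfl | rfl | rfl
    · exact a1
    · exact b1
    · exact a2
    · exact b2
    · exact a3
    · exact b3
  · unfold PS
    rw [Finset.prod_insert n1, Finset.prod_insert n2, Finset.prod_insert n3,
      Finset.prod_insert n4, Finset.prod_insert n5, Finset.prod_singleton]
    subst h4
    have h9 := congrArg (C : ℚ → ℚ[X]) h5
    simp only [map_add, map_mul, map_pow, map_neg] at h9 ⊢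
    have e1 : (X - C x) * (X - C y) * (X - -(C x + C y)) =
        (X ^ 3 - C 7 * X) + C x * C y * (C x + C y) := by
      linear_combination -(X : ℚ[X]) * h9
    have e2 : (X - -C x) * (X - -C y) * (X - (C x + C y)) =
        (X ^ 3 - C 7 * X) - C x * C y * (C x + C y) := by
      linear_combination -(X : ℚ[X]) * h9
    calc _ = ((X - C x) * (X - C y) * (X - -(C x + C y))) *
        ((X - -C x) * (X - -C y) * (X - (C x + C y))) := by ring
      _ = _ := by rw [e1, e2]; ring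

end Pool.Agent.TH665.CG6
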