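import Pool.Agent.TH665.CG6.Base

/-!
# Six equal values in all large degrees
-/

set_option autoImplicit false

namespace Pool.Agent.TH665.CG6

open Polynomial Pool.Agent.W289.CG Pool.Agent.W460.CG

lemma gx6 (j : Fin 6) : (x6 j ^ 3 - 7 * x6 j) ^ 2 = 36 := by
  fin_cases j <;> simp [x6] <;> norm_num

lemma dx6 (j : Fin 6) : (x6 j ^ 3 - 7 * x6 j) * (3 * x6 j ^ 2 - 7) ≠ 0 := by
  fin_cases j <;> simp [x6] <;> norm_num

lemma eq6_block {B : Finset ℚ} {k : ℚ} (h : PS B = (X ^ 3 - C 7 * X) ^ 2 - C (k ^ 2)) :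
    Eq6 B (36 - k ^ 2) := by
  intro j
  rw [h, eval_sub, eval_pow, eval_sub, eval_mul, eval_C, eval_C, eval_pow, eval_X, gx6]

lemma grow (S : Finset ℚ) (v : ℚ) (hv : 0 < v) (h : Eq6 S v) (hs : ∃ s ∈ S, 3 < s) (m : ℕ) :
    ∃ (T : Finset ℚ) (w : ℚ), T.card = S.card + 6 * m ∧ 0 < w ∧ Eq6 T w ∧ ∃ s ∈ T, 3 < s := by
  classical
  induction m with
  | zero => exact ⟨S, v, by simp, hv, h, hs⟩
  | succ m ih =>
    obtain ⟨T, w, h1, h2, h3, s, hs1, hs2⟩ := ih
    obtain ⟨B, k, k1, k2, k3, k4, -, k6⟩ := block6 T ∅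
    refine ⟨T ∪ B, w * (36 - k ^ 2), ?_, ?_, h3.union k2 (eq6_block k6), s,
      Finset.mem_union_left _ hs1, hs2⟩
    · rw [Finset.card_union_of_disjoint k2, h1, k1]
      ring
    · have : 0 < 36 - k ^ 2 := by nlinarith
      positivity

lemma grow' (S : Finset ℚ) (v : ℚ) (hv : 0 < v) (h : Eq6 S v) (hs : ∃ s ∈ S, 3 < s) (m : ℕ) :
    ∃ (T : Finset ℚ) (w : ℚ), T.card = S.card + 6 * (m + 1) ∧ 0 < w ∧ Eq6 T w ∧
      (∀ j, (derivative (PS T)).eval (x6 j) ≠ 0) ∧ ∃ s ∈ T, 3 < s := by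
  classical
  obtain ⟨T, w, h1, h2, h3, s, hs1, hs2⟩ := grow S v hv h hs m
  let G : Finset ℚ := Finset.univ.image fun j : Fin 6 =>
    36 + 2 * w * ((x6 j ^ 3 - 7 * x6 j) * (3 * x6 j ^ 2 - 7)) / (derivative (PS T)).eval (x6 j)
  obtain ⟨B, k, k1, k2, k3, k4, k5, k6⟩ := block6 T G
  refine ⟨T ∪ B, w * (36 - k ^ 2), ?_, ?_, h3.union k2 (eq6_block k6), ?_, s,
    Finset.mem_union_left _ hs1, hs2⟩
  · rw [Finset.card_union_of_disjoint k2, h1, k1]
    ring
  · have : 0 < 36 - k ^ 2 := by nlinarith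
    positivity
  · intro j h0
    have hB : (derivative (PS B)).eval (x6 j) =
        2 * ((x6 j ^ 3 - 7 * x6 j) * (3 * x6 j ^ 2 - 7)) := by
      have hder : derivative ((X ^ 3 - C 7 * X : ℚ[X]) ^ 2 - C (k ^ 2)) =
          C 2 * (X ^ 3 - C 7 * X) * (C 3 * X ^ 2 - C 7) := by
        rw [derivative_sub, derivative_C, sub_zero, derivative_sq, derivative_sub,
          derivative_X_pow, derivative_C_mul, derivative_X]
        norm_num
      rw [k6, hder]
      simp only [eval_mul, eval_sub, eval_pow, eval_X, eval_C]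
      ring
    rw [PS_union k2, derivative_mul, eval_add, eval_mul, eval_mul, eq6_block k6 j, hB, h3 j] at h0
    by_cases hd : (derivative (PS T)).eval (x6 j) = 0
    · rw [hd, zero_mul, zero_add] at h0
      have := dx6 j
      rcases mul_eq_zero.1 h0 with h4 | h4
      · exact h2.ne' h4
      · rcases mul_eq_zero.1 h4 with h5 | h5
        · norm_num at h5
        · exact this h5
    · apply k5
      rw [Finset.mem_image]
      refine ⟨j, Finset.mem_univ _, ?_⟩
      field_simp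
      linear_combination h0

lemma of_set6 (n : ℕ) (S : Finset ℚ) (v : ℚ) (hcard : S.card = n) (hv : 0 < v) (h3 : Eq6 S v)
    (hd : ∀ j, (derivative (PS S)).eval (x6 j) ≠ 0) (hlt : ∃ s ∈ S, 3 < s) :
    Nonempty (Dat n 6) := by
  classical
  let e : Fin n ≃ S := (S.equivFinOfCardEq hcard).symm
  let D : ℕ := ∏ t ∈ S, t.den
  have hD : 0 < D := Finset.prod_pos fun t _ => t.den_pos
  have hDQ : (0 : ℚ) < D := by exact_mod_cast hD
  have hz : ∀ i : Fin n, ∃ z : ℤ, (z : ℚ) = D * (e i : ℚ) := by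
    intro i
    obtain ⟨m, hm⟩ : (e i : ℚ).den ∣ D := Finset.dvd_prod_of_mem _ (e i).2
    refine ⟨m * (e i : ℚ).num, ?_⟩
    rw [hm]
    push_cast
    have h1 := Rat.num_div_den (e i : ℚ)
    have h2 : ((e i : ℚ).den : ℚ) ≠ 0 := by exact_mod_cast (e i : ℚ).den_ne_zero
    rw [div_eq_iff h2] at h1
    rw [h1]
    ring
  choose a ha using hz
  let b : Fin 6 → ℤ := ![-(3 * D : ℤ), -(2 * D : ℤ), -(D : ℤ), (D : ℤ), (2 * D : ℤ), (3 * D : ℤ)]
  have hb : ∀ j, (b j : ℚ) = D * x6 j := by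
    intro j
    fin_cases j <;> simp [b, x6, mul_comm]
  have hprod : ∀ y : ℚ, ∏ i, (y - (e i : ℚ)) = (PS S).eval y := by
    intro y
    unfold PS
    rw [eval_prod, Equiv.prod_comp e (fun s : S => y - (s : ℚ)),
      Finset.prod_coe_sort S (fun s => y - s)]
    exact Finset.prod_congr rfl fun s _ => by simp
  have hev : ∀ (z : ℤ) (y : ℚ), (z : ℚ) = D * y →
      (((pA a).eval z : ℤ) : ℚ) = (D : ℚ) ^ n * (PS S).eval y := by
    intro z y hzy
    unfold pA
    rw [eval_prod]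
    simp only [eval_sub, eval_X, eval_C]
    push_cast
    rw [← hprod y]
    have : ∀ i, (z : ℚ) - (a i : ℚ) = D * (y - (e i : ℚ)) := by
      intro i
      rw [hzy, ha]
      ring
    rw [Finset.prod_congr rfl fun i _ => this i, Finset.prod_mul_distrib, Finset.prod_const,
      Finset.card_univ, Fintype.card_fin]
  have hx1 : ∀ j, x6 j ≤ 3 := by
    intro j
    fin_cases j <;> simp [x6] <;> norm_num
  have hxinj : Function.Injective x6 := by
    intro i j hij
    fin_cases i <;> fin_cases j <;> simp [x6] at hij ⊢ <;> norm_num at hij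
  have hcomp : ((pA a).map (Int.castRingHom ℚ)).comp (C (D : ℚ) * X) =
      C ((D : ℚ) ^ n) * PS S := by
    unfold pA PS
    rw [Polynomial.map_prod, prod_comp]
    have h1 : ∏ s ∈ S, (X - C s : ℚ[X]) = ∏ i, (X - C (e i : ℚ)) := by
      rw [Equiv.prod_comp e (fun s : S => (X - C (s : ℚ) : ℚ[X])),
        Finset.prod_coe_sort S (fun s => (X - C s : ℚ[X]))]
    rw [h1]
    have h2 : ∀ i, ((X - C (a i)).map (Int.castRingHom ℚ)).comp (C (D : ℚ) * X) =
        C (D : ℚ) * (X - C (e i : ℚ)) := by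
      intro i
      rw [Polynomial.map_sub, map_X, map_C, sub_comp, X_comp, C_comp]
      change C (D : ℚ) * X - C ((a i : ℤ) : ℚ) = _
      rw [ha, C_mul]
      ring
    rw [Finset.prod_congr rfl fun i _ => h2 i, Finset.prod_mul_distrib, Finset.prod_const,
      Finset.card_univ, Fintype.card_fin, C_pow]
  refine ⟨{ a := a, b := b, c := (pA a).eval (b 0), ha := ?_, hb := ?_, hc := ?_, hab := ?_,
            hder := ?_, hlt := ?_ }⟩
  · intro i j hij
    apply e.injective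
    apply Subtype.ext
    have h1 := ha i
    rw [hij, ha j] at h1
    exact (mul_left_cancel₀ hDQ.ne' h1).symm
  · intro i j hij
    apply hxinj
    have h1 := hb i
    rw [hij, hb j] at h1
    exact (mul_left_cancel₀ hDQ.ne' h1).symm
  · have h1 := hev (b 0) (x6 0) (hb 0)
    rw [h3 0] at h1
    have h2 : (0 : ℚ) < (((pA a).eval (b 0) : ℤ) : ℚ) := by
      rw [h1]
      positivity
    exact_mod_cast h2
  · intro j
    have h1 := hev (b j) (x6 j) (hb j)
    have h2 := hev (b 0) (x6 0) (hb 0)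
    rw [h3 j] at h1
    rw [h3 0, ← h1] at h2
    exact_mod_cast h2.symm
  · intro j h0
    apply hd j
    have h1 := congrArg derivative hcomp
    rw [derivative_comp, derivative_C_mul, derivative_C_mul, derivative_X, mul_one] at h1
    have h2 := congrArg (eval (x6 j)) h1
    rw [eval_mul, eval_C, eval_comp, eval_mul, eval_C, eval_X, eval_mul, eval_C] at h2
    have h4 : eval ((D : ℚ) * x6 j) (derivative ((pA a).map (Int.castRingHom ℚ))) = 0 := by
      rw [← hb j, derivative_map]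
      have h5 : ((b j : ℤ) : ℚ) = Int.castRingHom ℚ (b j) := rfl
      rw [h5, eval_map, eval₂_hom, h0, map_zero]
    rw [h4, mul_zero] at h2
    have h5 : ((D : ℚ) ^ n) ≠ 0 := by positivity
    exact (mul_eq_zero.1 h2.symm).resolve_left h5
  · intro j
    obtain ⟨s, hs, hs1⟩ := hlt
    refine ⟨e.symm ⟨s, hs⟩, ?_⟩
    have h1 := ha (e.symm ⟨s, hs⟩)
    rw [Equiv.apply_symm_apply] at h1
    have h2 : ((b j : ℤ) : ℚ) < (a (e.symm ⟨s, hs⟩) : ℤ) := by
      rw [h1, hb j]
      apply mul_lt_mul_of_pos_left _ hDQ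
      exact (hx1 j).trans_lt hs1
    exact_mod_cast h2

lemma dat_of_blk {l : List (ℤ × ℤ)} {c : ℤ} (h : blk l c) (n m : ℕ)
    (hn : n = l.length + 6 * (m + 1)) : Nonempty (Dat n 6) := by
  obtain ⟨S, v, h1, h2, h3, h4⟩ := of_blk h
  obtain ⟨T, w, k1, k2, k3, k4, k5⟩ := grow' S v h2 h3 h4 m
  exact of_set6 n T w (by rw [k1, h1, hn]) k2 k3 k4 k5

end Pool.Agent.TH665.CG6
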